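import Mathlib
import Pool.Agent.H68.L.R_seed8.W192.CY.Stm

/-!
# Nonvanishing of Hecke L-values `L(ψχ, 1)` for ray class characters `χ` of large order
(owner helper192)

`R` is the ring of integers of an imaginary quadratic field `K` of class number one, `φ, κ ∈ R`
coprime, `ε` a primitive character mod `φ` with `ε(u) u = 1` for all units `u` (so `(α) ↦ ε(α) α` is
a Hecke character `ψ` of `K`), `χ` a primitive ray class character mod `κ` of order
`≥ |κ|^(2 (2/3 + ε))`.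
-/

set_option autoImplicit false

open Complex Filter Topology Set

namespace Pool.Agent.W192.CM

/-- `R = ℤ + ℤ ω` is a lattice in `ℂ` and a principal ideal ring, i.e. the ring of integers of an
imaginary quadratic field of class number one -/
structure CMRing (R : Subring ℂ) (ω : ℂ) : Prop where
  im : 0 < ω.im
  mem : ∀ z : ℂ, z ∈ R ↔ ∃ x y : ℤ, z = x + y * ω
  pid : IsPrincipalIdealRing R

/-- the residue ring modulo `κ` -/
abbrev Aq (R : Subring ℂ) (κ : R) : Type := R ⧸ Ideal.span {κ}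

/-- the value of a character modulo `κ` at `α` -/
noncomputable def ev {R : Subring ℂ} {κ : R} (χ : MulChar (Aq R κ) ℂ) (α : R) : ℂ :=
  χ (Ideal.Quotient.mk (Ideal.span {κ}) α)

/-- `χ` is primitive modulo `κ` -/
def Prim {R : Subring ℂ} {κ : R} (χ : MulChar (Aq R κ) ℂ) : Prop :=
  ∀ κ' : R, κ' ∣ κ → ¬ κ ∣ κ' → ∃ α : R, IsCoprime α κ ∧ κ' ∣ α - 1 ∧ ev χ α ≠ 1

/-- the additive character `z ↦ exp (2πi Tr(z/√disc)) = exp (2πi Im z / Im ω)`, trivial on `R` -/
noncomputable def ez (ω z : ℂ) : ℂ := Complex.exp (2 * Real.pi * Complex.I * ((z.im / ω.im : ℝ) : ℂ))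

/-- the Gauss sum -/
noncomputable def gs {R : Subring ℂ} (ω : ℂ) (κ : R) [Finite (Aq R κ)] (χ : MulChar (Aq R κ) ℂ) : ℂ :=
  ∑ᶠ x : Aq R κ, χ x * ez ω (((Quotient.out x : R) : ℂ) / (κ : ℂ))

/-- number of units -/
noncomputable def nu (R : Subring ℂ) : ℕ := Nat.card Rˣ

/-! ## generic finite rings -/

/-- the powers `ψ` of `χ₀` with `ψ ^ e = 1` -/
noncomputable def Cf {A : Type} [CommRing A] [Finite A] (χ₀ : MulChar A ℂ) (e : ℕ) :
    Finset (MulChar A ℂ) :=
  (Set.toFinite {ψ : MulChar A ℂ | ψ ∈ Subgroup.zpowers χ₀ ∧ ψ ^ e = 1}).toFinset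

/-- the powers `χ₀ ^ a`, `a` prime to the order of `χ₀`, `a ≡ 1 mod M` -/
noncomputable def Ef {A : Type} [CommRing A] [Finite A] (χ₀ : MulChar A ℂ) (M : ℕ) :
    Finset (MulChar A ℂ) :=
  (Set.toFinite {ψ : MulChar A ℂ | ∃ a : ℕ, Nat.Coprime a (orderOf χ₀) ∧
    a % M = 1 % M ∧ ψ = χ₀ ^ a}).toFinset

/-- the common kernel of the powers `ψ` of `χ₀` with `ψ ^ e = 1` -/
def Hf {A : Type} [CommRing A] (χ₀ : MulChar A ℂ) (e : ℕ) : Subgroup Aˣ where
  carrier := {x | ∀ ψ : MulChar A ℂ, ψ ∈ Subgroup.zpowers χ₀ → ψ ^ e = 1 → ψ (x : A) = 1}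
  one_mem' := fun ψ _ _ => by simp
  mul_mem' := fun {x y} hx hy ψ h0 h => by
    rw [Units.val_mul, map_mul, hx ψ h0 h, hy ψ h0 h, one_mul]
  inv_mem' := fun {x} hx ψ h0 h => by
    have h1 : ψ (x : A) * ψ ((x⁻¹ : Aˣ) : A) = 1 := by
      rw [← map_mul, ← Units.val_mul, mul_inv_cancel, Units.val_one, map_one]
    rw [hx ψ h0 h, one_mul] at h1
    exact h1

end Pool.Agent.W192.CM
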