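import Mathlib
import Pool.Agent.H68.L.R_seed8.W192.CM.Defs

/-!
# Parts of the project CM (owner helper192): every `def C_... : Prop` is the statement of one part
-/

set_option autoImplicit false

open Complex Filter Topology Set

namespace Pool.Agent.W192.CM

/-! ## arithmetic of `R` -/

/-- BASIC -/
def C_BASIC : Prop := ∀ (R : Subring ℂ) (ω : ℂ), CMRing R ω →
  (∀ α : R, ∃ n : ℕ, Complex.normSq (α : ℂ) = n) ∧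
  (∀ α : R, IsUnit α ↔ Complex.normSq (α : ℂ) = 1) ∧
  (∀ α : R, (starRingEnd ℂ) (α : ℂ) ∈ R) ∧
  Finite Rˣ ∧
  (∀ κ : R, κ ≠ 0 → Finite (Aq R κ) ∧ (Nat.card (Aq R κ) : ℝ) = Complex.normSq (κ : ℂ))

/-- LAT : lattice points in a disc in a residue class -/
def C_LAT : Prop := ∀ (R : Subring ℂ) (ω : ℂ), CMRing R ω → ∃ C : ℝ, 0 < C ∧
  ∀ κ : R, κ ≠ 0 → ∀ (a : R) (y : ℝ), 0 ≤ y →
    {α : R | Complex.normSq (α : ℂ) ≤ y ∧ κ ∣ α - a}.Finite ∧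
    (Set.ncard {α : R | Complex.normSq (α : ℂ) ≤ y ∧ κ ∣ α - a} : ℝ) ≤
      C * (1 + y / Complex.normSq (κ : ℂ))

/-- DIVR : divisor bound in `R` -/
def C_DIVR : Prop := ∀ (R : Subring ℂ) (ω : ℂ), CMRing R ω → ∀ η : ℝ, 0 < η → ∃ C : ℝ, 0 < C ∧
  ∀ γ : R, γ ≠ 0 → {β : R | β ∣ γ}.Finite ∧
    (Set.ncard {β : R | β ∣ γ} : ℝ) ≤ C * (Complex.normSq (γ : ℂ)) ^ η

open Classical in
/-- the properties of the Möbius function of `R` -/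
structure Mu (R : Subring ℂ) (m : R → ℝ) : Prop where
  le : ∀ β : R, |m β| ≤ 1
  sum : ∀ γ : R, γ ≠ 0 → ∑ᶠ β ∈ {β : R | β ∣ γ}, m β = if IsUnit γ then (nu R : ℝ) else 0

/-- MU -/
def C_MU : Prop := ∀ (R : Subring ℂ) (ω : ℂ), CMRing R ω → ∃ m : R → ℝ, Mu R m

/-- the elements `γ` of `R` with `|γ|² ≤ y` in the subgroup `H` modulo `κ` -/
noncomputable def cntR {R : Subring ℂ} {κ : R} (H : Subgroup (Aq R κ)ˣ) (y : ℝ) : ℕ :=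
  Set.ncard {γ : R | Complex.normSq (γ : ℂ) ≤ y ∧
    ∃ x ∈ H, ((x : (Aq R κ)ˣ) : Aq R κ) = Ideal.Quotient.mk (Ideal.span {κ}) γ ∧ γ ≠ 0}

/-- COUNT -/
def C_COUNT : Prop := ∀ (R : Subring ℂ) (ω : ℂ), CMRing R ω → ∀ (j : ℕ), 1 ≤ j → ∀ η : ℝ, 0 < η →
  ∃ C : ℝ, 0 < C ∧ ∀ κ : R, κ ≠ 0 → ∀ (H : Subgroup (Aq R κ)ˣ) (y : ℝ), 1 ≤ y →
    (cntR H y : ℝ) ^ j ≤ C * y ^ η * (y ^ j / Complex.normSq (κ : ℂ) + 1) * Nat.card H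

open Classical in
/-- the sum over `γ ∈ H` with `|γ|² > B` -/
noncomputable def tailR {R : Subring ℂ} {κ : R} (H : Subgroup (Aq R κ)ˣ) (B X η : ℝ) : ℝ :=
  ∑' γ : R, if B < Complex.normSq (γ : ℂ) ∧
      ∃ x ∈ H, ((x : (Aq R κ)ˣ) : Aq R κ) = Ideal.Quotient.mk (Ideal.span {κ}) γ
    then (Complex.normSq (γ : ℂ)) ^ (-1 / 2 + η) * Real.exp (-(Complex.normSq (γ : ℂ) / X)) else 0

/-- TAIL -/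
def C_TAIL : Prop := ∀ (R : Subring ℂ) (ω : ℂ), CMRing R ω → ∀ ε : ℝ, 0 < ε → ε < 1 / 12 →
  ∃ η δ C : ℝ, 0 < η ∧ η < 1 / 8 ∧ 0 < δ ∧ 0 < C ∧
  ∀ κ : R, κ ≠ 0 → ∀ (d e : ℕ), e ∣ d → (d : ℝ) ≤ Complex.normSq (κ : ℂ) →
  (Complex.normSq (κ : ℂ)) ^ (2 / 3 + ε) ≤ d →
  ∀ H : Subgroup (Aq R κ)ˣ, (e * Nat.card H : ℝ) ≤ Complex.normSq (κ : ℂ) →
    (e : ℝ) * tailR H ((Complex.normSq (κ : ℂ)) ^ (ε / 2))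
      ((Complex.normSq (κ : ℂ)) ^ (2 / 3 + ε / 2)) η ≤
      C * d * (Complex.normSq (κ : ℂ)) ^ (-δ)

/-! ## characters of finite rings -/

/-- ORTH -/
def C_ORTH : Prop := ∀ (A : Type) [CommRing A] [Finite A] (χ₀ : MulChar A ℂ) (e : ℕ),
  e ∣ orderOf χ₀ → e * Nat.card (Hf χ₀ e) = Nat.card Aˣ ∧
  ∀ x : Aˣ, (x ∈ Hf χ₀ e → ∑ χ ∈ Cf χ₀ e, χ (x : A) = (e : ℂ)) ∧
    (x ∉ Hf χ₀ e → ∑ χ ∈ Cf χ₀ e, χ (x : A) = 0)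

/-- MOB -/
def C_MOB : Prop := ∀ (A : Type) [CommRing A] [Finite A] (χ₀ : MulChar A ℂ) (M : ℕ), 1 ≤ M →
  M ∣ orderOf χ₀ → ∃ t : ℕ → ℕ,
  (Ef χ₀ M).card * Nat.totient M = Nat.totient (orderOf χ₀) ∧
  ∀ g : MulChar A ℂ → ℂ, ∑ χ ∈ Ef χ₀ M, g χ =
    ∑ r ∈ (orderOf χ₀).divisors.filter (fun r => Nat.Coprime r M),
      ((ArithmeticFunction.moebius r : ℤ) : ℂ) *
        ∑ ψ ∈ Cf χ₀ (orderOf χ₀ / (r * M)), g (χ₀ ^ (t r) * ψ)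

/-- GAVG -/
def C_GAVG : Prop := ∀ (A : Type) [CommRing A] [Fintype A] (χ₀ : MulChar A ℂ) (e t : ℕ),
  e ∣ orderOf χ₀ → ∀ f : A → ℂ, (∀ x, ‖f x‖ ≤ 1) → ∀ y : Aˣ,
  ‖∑ χ ∈ Cf χ₀ e, (χ₀ ^ t * χ) (y : A) * ∑ x : A, (χ₀ ^ t * χ) x * f x‖ ≤ Nat.card Aˣ

/-! ## theta functions -/

/-- the data: `φ`, `κ` coprime, primitive characters, unit condition -/
structure Dat {R : Subring ℂ} {φ κ : R} (ε : MulChar (Aq R φ) ℂ) (χ : MulChar (Aq R κ) ℂ) :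
    Prop where
  ne : φ ≠ 0
  ne' : κ ≠ 0
  cop : IsCoprime φ κ
  prim : Prim ε
  prim' : Prim χ
  unit : ∀ u : R, IsUnit u → ev ε u * (u : ℂ) = 1
  unit' : ∀ u : R, IsUnit u → ev χ u = 1

/-- GAUSS : `|gs χ| = |κ|` and the Fourier transform of a primitive character -/
def C_GAUSS : Prop := ∀ (R : Subring ℂ) (ω : ℂ), CMRing R ω → ∀ (κ : R) [Finite (Aq R κ)], κ ≠ 0 →
  ∀ χ : MulChar (Aq R κ) ℂ, Prim χ →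
  ‖gs ω κ χ‖ = ‖(κ : ℂ)‖ ∧
  ∀ β : R, ∑ᶠ x : Aq R κ, χ x * ez ω (((Quotient.out x : R) : ℂ) * (β : ℂ) / (κ : ℂ)) =
    (starRingEnd ℂ) (ev χ β) * gs ω κ χ

/-- POIS : Poisson summation on a residue class of `R` (`D = 2 Im ω`) -/
def C_POIS : Prop := ∀ (R : Subring ℂ) (ω : ℂ), CMRing R ω → ∀ (z0 : ℂ) (t : ℝ), 0 < t →
  Summable (fun α : R => ((α : ℂ) + z0) *
    (Real.exp (-(2 * Real.pi * t * Complex.normSq ((α : ℂ) + z0) / (2 * ω.im))) : ℂ)) ∧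
  Summable (fun β : R => ((starRingEnd ℂ) (β : ℂ)) * ez ω (z0 * (β : ℂ)) *
    (Real.exp (-(2 * Real.pi * Complex.normSq (β : ℂ) / (2 * ω.im * t))) : ℂ)) ∧
  ∑' α : R, ((α : ℂ) + z0) *
      (Real.exp (-(2 * Real.pi * t * Complex.normSq ((α : ℂ) + z0) / (2 * ω.im))) : ℂ) =
    (1 / (t : ℂ) ^ 2) * ∑' β : R, ((starRingEnd ℂ) (β : ℂ)) * ez ω (z0 * (β : ℂ)) *
      (Real.exp (-(2 * Real.pi * Complex.normSq (β : ℂ) / (2 * ω.im * t))) : ℂ)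

/-- the unimodular constant of the functional equation -/
noncomputable def Wc {R : Subring ℂ} (ω : ℂ) {φ κ : R} [Finite (Aq R φ)] [Finite (Aq R κ)]
    (ε : MulChar (Aq R φ) ℂ) (χ : MulChar (Aq R κ) ℂ) : ℂ :=
  ((φ : ℂ) * gs ω φ ε / (Complex.normSq (φ : ℂ) : ℂ)) * (ev ε κ * (κ : ℂ) / (‖(κ : ℂ)‖ : ℂ)) *
    (ev χ φ * gs ω κ χ / (‖(κ : ℂ)‖ : ℂ))

/-- THETA -/
def C_THETA : Prop := ∀ (R : Subring ℂ) (ω : ℂ), CMRing R ω → ∀ (φ κ : R) [Finite (Aq R φ)]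
  [Finite (Aq R κ)] (ε : MulChar (Aq R φ) ℂ) (χ : MulChar (Aq R κ) ℂ), Dat ε χ →
  ‖Wc ω ε χ‖ = 1 ∧ ∀ t : ℝ, 0 < t →
  Summable (fun α : R => ‖(α : ℂ)‖ * Real.exp (-(2 * Real.pi * Complex.normSq (α : ℂ) * t /
      (2 * ω.im * ‖(φ : ℂ) * (κ : ℂ)‖)))) ∧
  ∑' α : R, ev ε α * ev χ α * (α : ℂ) *
      (Real.exp (-(2 * Real.pi * Complex.normSq (α : ℂ) / (2 * ω.im * ‖(φ : ℂ) * (κ : ℂ)‖)) / t) : ℂ)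
    = Wc ω ε χ * (t : ℂ) ^ 2 * ∑' α : R, (starRingEnd ℂ) (ev ε α * ev χ α * (α : ℂ)) *
      (Real.exp (-(2 * Real.pi * Complex.normSq (α : ℂ) / (2 * ω.im * ‖(φ : ℂ) * (κ : ℂ)‖)) * t) : ℂ)

/-- AFE -/
def C_AFE : Prop := ∀ (R : Subring ℂ) (ω : ℂ), CMRing R ω → ∀ (φ κ : R) [Finite (Aq R φ)]
  [Finite (Aq R κ)] (ε : MulChar (Aq R φ) ℂ) (χ : MulChar (Aq R κ) ℂ), Dat ε χ →
  ∃ F : ℂ → ℂ, Differentiable ℂ F ∧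
    (∀ s : ℂ, 3 / 2 < s.re →
      Summable (fun α : R => ‖(α : ℂ) * (‖(α : ℂ)‖ : ℂ) ^ (-2 * s)‖) ∧
      F s = (1 / (nu R : ℂ)) * ∑' α : R, ev ε α * ev χ α * (α : ℂ) * (‖(α : ℂ)‖ : ℂ) ^ (-2 * s)) ∧
    ∀ X Y : ℝ, 0 < X → 0 < Y →
      X * Y = ω.im ^ 2 * Complex.normSq (φ : ℂ) * Complex.normSq (κ : ℂ) / Real.pi ^ 2 →
      F 1 = (1 / (nu R : ℂ)) * (∑' α : R, ev χ α * (ev ε α * (α : ℂ)) /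
          (Complex.normSq (α : ℂ) : ℂ) * (Real.exp (-(Complex.normSq (α : ℂ) / X)) : ℂ) +
        Wc ω ε χ * ∑' α : R, (starRingEnd ℂ) (ev χ α * (ev ε α * (α : ℂ))) /
          (Complex.normSq (α : ℂ) : ℂ) * (Real.exp (-(Complex.normSq (α : ℂ) / Y)) : ℂ))

/-! ## the averages -/

/-- `g(α) = ε(α) α` : completely multiplicative, `|g(α)| ≤ |α|`, `g(u) = 1` for units -/
structure Gd (R : Subring ℂ) (g : R → ℂ) : Prop where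
  zero : g 0 = 0
  mul : ∀ α β : R, g (α * β) = g α * g β
  unit : ∀ u : R, IsUnit u → g u = 1
  le : ∀ α : R, ‖g α‖ ≤ ‖(α : ℂ)‖

open Classical in
/-- the mollifier of length `B` -/
noncomputable def mol {R : Subring ℂ} {κ : R} (m : R → ℝ) (g : R → ℂ) (B : ℝ)
    (χ : MulChar (Aq R κ) ℂ) : ℂ :=
  (1 / (nu R : ℂ)) * ∑' β : R, if Complex.normSq (β : ℂ) ≤ B then
    ev χ β * ((m β : ℂ) * g β) / (Complex.normSq (β : ℂ) : ℂ) else 0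

/-- the smoothed sum of length `X` -/
noncomputable def smo {R : Subring ℂ} {κ : R} (g : R → ℂ) (X : ℝ) (χ : MulChar (Aq R κ) ℂ) : ℂ :=
  (1 / (nu R : ℂ)) * ∑' α : R, ev χ α * g α / (Complex.normSq (α : ℂ) : ℂ) *
    (Real.exp (-(Complex.normSq (α : ℂ) / X)) : ℂ)

/-- MAINP -/
def C_MAINP : Prop := ∀ (R : Subring ℂ) (ω : ℂ), CMRing R ω → ∀ (m : R → ℝ) (g : R → ℂ), Mu R m →
  Gd R g → ∀ ε : ℝ, 0 < ε → ε < 1 / 12 →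
  ∃ δ C q0 : ℝ, 0 < δ ∧ 0 < C ∧ ∀ (κ : R) [Finite (Aq R κ)], κ ≠ 0 →
  q0 ≤ Complex.normSq (κ : ℂ) → ∀ χ₀ : MulChar (Aq R κ) ℂ, (∀ u : R, IsUnit u → ev χ₀ u = 1) →
  (Complex.normSq (κ : ℂ)) ^ (2 / 3 + ε) ≤ orderOf χ₀ → ∀ M : ℕ, 1 ≤ M → M ∣ orderOf χ₀ →
  ‖∑ χ ∈ Ef χ₀ M, mol m g ((Complex.normSq (κ : ℂ)) ^ (ε / 2)) χ *
      smo g ((Complex.normSq (κ : ℂ)) ^ (2 / 3 : ℝ)) χ - ((Ef χ₀ M).card : ℂ)‖ ≤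
    C * orderOf χ₀ * (Complex.normSq (κ : ℂ)) ^ (-δ)

/-- DUALP -/
def C_DUALP : Prop := ∀ (R : Subring ℂ) (ω : ℂ), CMRing R ω → ∀ (m : R → ℝ) (g : R → ℂ), Mu R m →
  Gd R g → ∀ c0 : ℝ, 0 < c0 → ∀ ε : ℝ, 0 < ε → ε < 1 / 12 →
  ∃ δ C q0 : ℝ, 0 < δ ∧ 0 < C ∧ ∀ (κ φ : R) [Finite (Aq R κ)], κ ≠ 0 → IsCoprime φ κ →
  q0 ≤ Complex.normSq (κ : ℂ) → ∀ χ₀ : MulChar (Aq R κ) ℂ,
  (Complex.normSq (κ : ℂ)) ^ (2 / 3 + ε) ≤ orderOf χ₀ → ∀ M : ℕ, 1 ≤ M → M ∣ orderOf χ₀ →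
  ‖∑ χ ∈ Ef χ₀ M, mol m g ((Complex.normSq (κ : ℂ)) ^ (ε / 2)) χ *
      (ev χ φ * gs ω κ χ / (‖(κ : ℂ)‖ : ℂ)) *
      (starRingEnd ℂ) (smo g (c0 * (Complex.normSq (κ : ℂ)) ^ (1 / 3 : ℝ)) χ)‖ ≤
    C * orderOf χ₀ * (Complex.normSq (κ : ℂ)) ^ (-δ)

/-- FINN -/
def C_FINN : Prop := ∀ (R : Subring ℂ) (ω : ℂ), CMRing R ω → ∀ (g : R → ℂ), Gd R g →
  ∀ c0 : ℝ, 0 < c0 → ∀ M : ℕ, 1 ≤ M → ∀ ε : ℝ, 0 < ε →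
  ∃ q0 : ℝ, ∀ (κ φ : R) [Finite (Aq R κ)], κ ≠ 0 → IsCoprime φ κ → q0 ≤ Complex.normSq (κ : ℂ) →
  ∀ w : ℂ, ‖w‖ = 1 → ∀ L : MulChar (Aq R κ) ℂ → ℂ,
    (∀ χ : MulChar (Aq R κ) ℂ, Prim χ → (∀ u : R, IsUnit u → ev χ u = 1) →
      ∀ X Y : ℝ, 0 < X → 0 < Y → X * Y = c0 * Complex.normSq (κ : ℂ) →
      L χ = smo g X χ + w * (ev χ φ * gs ω κ χ / (‖(κ : ℂ)‖ : ℂ)) *
        (starRingEnd ℂ) (smo g Y χ)) →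
    ∀ χ₀ : MulChar (Aq R κ) ℂ, Prim χ₀ → (∀ u : R, IsUnit u → ev χ₀ u = 1) →
      (Complex.normSq (κ : ℂ)) ^ (2 / 3 + ε) ≤ orderOf χ₀ →
      ∃ a : ℕ, Nat.Coprime a (orderOf χ₀) ∧ a % M = 1 % M ∧ Prim (χ₀ ^ a) ∧
        (∀ u : R, IsUnit u → ev (χ₀ ^ a) u = 1) ∧
        (Complex.normSq (κ : ℂ)) ^ (-ε) ≤ ‖L (χ₀ ^ a)‖

end Pool.Agent.W192.CM
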