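import Mathlib
import Pool.Agent.H68.L.R_seed8.W192.CM.Parts
import Pool.Agent.H68.L.R_seed8.W192.CY.Stk

/-!
# Project CM, second theorem (owner helper192): Hecke characters of infinity type `(2m - 1, 0)`

`ψ((α)) = ε(α) α^(2m-1)`, central point `s = m`.  The parts are those of `Parts` with the weight
`α^(2m-1)` instead of `α` and the weight function `Vk m` (`Pool.Agent.W192.CY.Stk`) instead of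
`exp (-x)`.
-/

set_option autoImplicit false

open Complex Filter Topology Set

namespace Pool.Agent.W192.CM

open Pool.Agent.W192.CY (VW Vk)

/-- POIS : Poisson summation with the harmonic weight `z ^ n` -/
def D_POIS : Prop := ∀ (R : Subring ℂ) (ω : ℂ), CMRing R ω → ∀ (n : ℕ) (z0 : ℂ) (t : ℝ), 0 < t →
  Summable (fun α : R => ((α : ℂ) + z0) ^ n *
    (Real.exp (-(2 * Real.pi * t * Complex.normSq ((α : ℂ) + z0) / (2 * ω.im))) : ℂ)) ∧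
  Summable (fun β : R => ((starRingEnd ℂ) (β : ℂ)) ^ n * ez ω (z0 * (β : ℂ)) *
    (Real.exp (-(2 * Real.pi * Complex.normSq (β : ℂ) / (2 * ω.im * t))) : ℂ)) ∧
  ∑' α : R, ((α : ℂ) + z0) ^ n *
      (Real.exp (-(2 * Real.pi * t * Complex.normSq ((α : ℂ) + z0) / (2 * ω.im))) : ℂ) =
    (1 / (t : ℂ) ^ (n + 1)) * ∑' β : R, ((starRingEnd ℂ) (β : ℂ)) ^ n * ez ω (z0 * (β : ℂ)) *
      (Real.exp (-(2 * Real.pi * Complex.normSq (β : ℂ) / (2 * ω.im * t))) : ℂ)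

/-- the data, weight `2m - 1` -/
structure Datn {R : Subring ℂ} {φ κ : R} (m : ℕ) (ε : MulChar (Aq R φ) ℂ)
    (χ : MulChar (Aq R κ) ℂ) : Prop where
  one : 1 ≤ m
  ne : φ ≠ 0
  ne' : κ ≠ 0
  cop : IsCoprime φ κ
  prim : Prim ε
  prim' : Prim χ
  unit : ∀ u : R, IsUnit u → ev ε u * (u : ℂ) ^ (2 * m - 1) = 1
  unit' : ∀ u : R, IsUnit u → ev χ u = 1

/-- the unimodular constant of the functional equation -/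
noncomputable def Wn {R : Subring ℂ} (ω : ℂ) {φ κ : R} [Finite (Aq R φ)] [Finite (Aq R κ)] (m : ℕ)
    (ε : MulChar (Aq R φ) ℂ) (χ : MulChar (Aq R κ) ℂ) : ℂ :=
  ((φ : ℂ) ^ (2 * m - 1) * gs ω φ ε / (‖(φ : ℂ)‖ : ℂ) ^ (2 * m)) *
    (ev ε κ * (κ : ℂ) ^ (2 * m - 1) / (‖(κ : ℂ)‖ : ℂ) ^ (2 * m - 1)) *
    (ev χ φ * gs ω κ χ / (‖(κ : ℂ)‖ : ℂ))

/-- THETA -/
def D_THETA : Prop := ∀ (R : Subring ℂ) (ω : ℂ), CMRing R ω → ∀ (φ κ : R) [Finite (Aq R φ)]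
  [Finite (Aq R κ)] (m : ℕ) (ε : MulChar (Aq R φ) ℂ) (χ : MulChar (Aq R κ) ℂ), Datn m ε χ →
  ∀ t : ℝ, 0 < t →
  ∑' α : R, ev ε α * ev χ α * (α : ℂ) ^ (2 * m - 1) *
      (Real.exp (-(2 * Real.pi * Complex.normSq (α : ℂ) / (2 * ω.im * ‖(φ : ℂ) * (κ : ℂ)‖)) / t) : ℂ)
    = Wn ω m ε χ * (t : ℂ) ^ (2 * m) *
      ∑' α : R, (starRingEnd ℂ) (ev ε α * ev χ α * (α : ℂ) ^ (2 * m - 1)) *
      (Real.exp (-(2 * Real.pi * Complex.normSq (α : ℂ) / (2 * ω.im * ‖(φ : ℂ) * (κ : ℂ)‖)) * t) : ℂ)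

/-- AFE -/
def D_AFE : Prop := ∀ (R : Subring ℂ) (ω : ℂ), CMRing R ω → ∀ (φ κ : R) [Finite (Aq R φ)]
  [Finite (Aq R κ)] (m : ℕ) (ε : MulChar (Aq R φ) ℂ) (χ : MulChar (Aq R κ) ℂ), Datn m ε χ →
  ∃ F : ℂ → ℂ, Differentiable ℂ F ∧
    (∀ s : ℂ, (m : ℝ) + 1 / 2 < s.re →
      Summable (fun α : R => ‖(α : ℂ) ^ (2 * m - 1) * (‖(α : ℂ)‖ : ℂ) ^ (-2 * s)‖) ∧
      F s = (1 / (nu R : ℂ)) *
        ∑' α : R, ev ε α * ev χ α * (α : ℂ) ^ (2 * m - 1) * (‖(α : ℂ)‖ : ℂ) ^ (-2 * s)) ∧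
    ∀ X Y : ℝ, 0 < X → 0 < Y →
      X * Y = ω.im ^ 2 * Complex.normSq (φ : ℂ) * Complex.normSq (κ : ℂ) / Real.pi ^ 2 →
      F m = (1 / (nu R : ℂ)) * (∑' α : R,
          ev χ α * (ev ε α * (α : ℂ) ^ (2 * m - 1) / (Complex.normSq (α : ℂ) : ℂ) ^ (m - 1)) /
          (Complex.normSq (α : ℂ) : ℂ) * (Vk m (Complex.normSq (α : ℂ) / X) : ℂ) +
        Wn ω m ε χ * ∑' α : R, (starRingEnd ℂ)
          (ev χ α * (ev ε α * (α : ℂ) ^ (2 * m - 1) / (Complex.normSq (α : ℂ) : ℂ) ^ (m - 1))) /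
          (Complex.normSq (α : ℂ) : ℂ) * (Vk m (Complex.normSq (α : ℂ) / Y) : ℂ))

/-- the smoothed sum of length `X` -/
noncomputable def smov {R : Subring ℂ} {κ : R} (V : ℝ → ℝ) (g : R → ℂ) (X : ℝ)
    (χ : MulChar (Aq R κ) ℂ) : ℂ :=
  (1 / (nu R : ℂ)) * ∑' α : R, ev χ α * g α / (Complex.normSq (α : ℂ) : ℂ) *
    (V (Complex.normSq (α : ℂ) / X) : ℂ)

/-- MAINP (`X = N^(2/3) / 2`) -/
def D_MAINP : Prop := ∀ (V : ℝ → ℝ) (CV : ℝ), VW V CV → ∀ (R : Subring ℂ) (ω : ℂ), CMRing R ω →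
  ∀ (m : R → ℝ) (g : R → ℂ), Mu R m → Gd R g → ∀ ε : ℝ, 0 < ε → ε < 1 / 12 →
  ∃ δ C q0 : ℝ, 0 < δ ∧ 0 < C ∧ ∀ (κ : R) [Finite (Aq R κ)], κ ≠ 0 →
  q0 ≤ Complex.normSq (κ : ℂ) → ∀ χ₀ : MulChar (Aq R κ) ℂ, (∀ u : R, IsUnit u → ev χ₀ u = 1) →
  (Complex.normSq (κ : ℂ)) ^ (2 / 3 + ε) ≤ orderOf χ₀ → ∀ M : ℕ, 1 ≤ M → M ∣ orderOf χ₀ →
  ‖∑ χ ∈ Ef χ₀ M, mol m g ((Complex.normSq (κ : ℂ)) ^ (ε / 2)) χ *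
      smov V g ((Complex.normSq (κ : ℂ)) ^ (2 / 3 : ℝ) / 2) χ - ((Ef χ₀ M).card : ℂ)‖ ≤
    C * orderOf χ₀ * (Complex.normSq (κ : ℂ)) ^ (-δ)

/-- DUALP -/
def D_DUALP : Prop := ∀ (V : ℝ → ℝ) (CV : ℝ), VW V CV → ∀ (R : Subring ℂ) (ω : ℂ), CMRing R ω →
  ∀ (m : R → ℝ) (g : R → ℂ), Mu R m → Gd R g → ∀ c0 : ℝ, 0 < c0 → ∀ ε : ℝ, 0 < ε → ε < 1 / 12 →
  ∃ δ C q0 : ℝ, 0 < δ ∧ 0 < C ∧ ∀ (κ φ : R) [Finite (Aq R κ)], κ ≠ 0 → IsCoprime φ κ →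
  q0 ≤ Complex.normSq (κ : ℂ) → ∀ χ₀ : MulChar (Aq R κ) ℂ,
  (Complex.normSq (κ : ℂ)) ^ (2 / 3 + ε) ≤ orderOf χ₀ → ∀ M : ℕ, 1 ≤ M → M ∣ orderOf χ₀ →
  ‖∑ χ ∈ Ef χ₀ M, mol m g ((Complex.normSq (κ : ℂ)) ^ (ε / 2)) χ *
      (ev χ φ * gs ω κ χ / (‖(κ : ℂ)‖ : ℂ)) *
      (starRingEnd ℂ) (smov V g (c0 * (Complex.normSq (κ : ℂ)) ^ (1 / 3 : ℝ)) χ)‖ ≤
    C * orderOf χ₀ * (Complex.normSq (κ : ℂ)) ^ (-δ)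

/-- FINN -/
def D_FINN : Prop := ∀ (V : ℝ → ℝ) (CV : ℝ), VW V CV → ∀ (R : Subring ℂ) (ω : ℂ), CMRing R ω →
  ∀ (g : R → ℂ), Gd R g → ∀ c0 : ℝ, 0 < c0 → ∀ M : ℕ, 1 ≤ M → ∀ ε : ℝ, 0 < ε →
  ∃ q0 : ℝ, ∀ (κ φ : R) [Finite (Aq R κ)], κ ≠ 0 → IsCoprime φ κ → q0 ≤ Complex.normSq (κ : ℂ) →
  ∀ w : ℂ, ‖w‖ = 1 → ∀ L : MulChar (Aq R κ) ℂ → ℂ,
    (∀ χ : MulChar (Aq R κ) ℂ, Prim χ → (∀ u : R, IsUnit u → ev χ u = 1) →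
      ∀ X Y : ℝ, 0 < X → 0 < Y → X * Y = c0 * Complex.normSq (κ : ℂ) →
      L χ = smov V g X χ + w * (ev χ φ * gs ω κ χ / (‖(κ : ℂ)‖ : ℂ)) *
        (starRingEnd ℂ) (smov V g Y χ)) →
    ∀ χ₀ : MulChar (Aq R κ) ℂ, Prim χ₀ → (∀ u : R, IsUnit u → ev χ₀ u = 1) →
      (Complex.normSq (κ : ℂ)) ^ (2 / 3 + ε) ≤ orderOf χ₀ →
      ∃ a : ℕ, Nat.Coprime a (orderOf χ₀) ∧ a % M = 1 % M ∧ Prim (χ₀ ^ a) ∧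
        (∀ u : R, IsUnit u → ev (χ₀ ^ a) u = 1) ∧
        (Complex.normSq (κ : ℂ)) ^ (-ε) ≤ ‖L (χ₀ ^ a)‖

end Pool.Agent.W192.CM
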